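import Mathlib

/-! # Paths as functions, holes made of two paths -/

set_option autoImplicit false

namespace Pool.Agent.Q130.IPC

open SimpleGraph Finset

variable {V : Type} {G : SimpleGraph V}

/-- the walk along a sequence of vertices -/
lemma walk_fun (f : ℕ → V) (i : ℕ) (d : ℕ) (h : ∀ k, i ≤ k → k < i + d → G.Adj (f k) (f (k + 1))) :
    ∃ p : G.Walk (f i) (f (i + d)), p.length = d ∧
      (∀ x ∈ p.support, ∃ k, i ≤ k ∧ k ≤ i + d ∧ x = f k) ∧
      ∀ k, i ≤ k → k ≤ i + d → f k ∈ p.support := by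
  induction d with
  | zero =>
    refine ⟨Walk.nil, rfl, ?_, ?_⟩
    · intro x hx
      rw [Walk.support_nil, List.mem_singleton] at hx
      exact ⟨i, le_rfl, le_rfl, hx⟩
    · intro k h1 h2
      have : k = i := by omega
      rw [this]
      exact Walk.start_mem_support _
  | succ d ih =>
    obtain ⟨p, hp, hs, hs'⟩ := ih fun k h1 h2 => h k h1 (by omega)
    have ha : G.Adj (f (i + d)) (f (i + d + 1)) := h (i + d) (by omega) (by omega)
    refine ⟨p.append (Walk.cons ha Walk.nil), ?_, ?_, ?_⟩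
    · rw [Walk.length_append, hp]; rfl
    · intro x hx
      rw [Walk.mem_support_append_iff] at hx
      rcases hx with hx | hx
      · obtain ⟨k, h1, h2, h3⟩ := hs x hx
        exact ⟨k, h1, by omega, h3⟩
      · rw [Walk.support_cons, Walk.support_nil, List.mem_cons, List.mem_singleton] at hx
        rcases hx with hx | hx
        · exact ⟨i + d, by omega, by omega, hx⟩
        · exact ⟨i + d + 1, by omega, by omega, hx⟩
    · intro k h1 h2
      rw [Walk.mem_support_append_iff]
      rcases Nat.lt_or_ge k (i + d + 1) with h3 | h3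
      · exact Or.inl (hs' k h1 (by omega))
      · right
        have : k = i + d + 1 := by omega
        rw [this]
        exact Walk.end_mem_support _

/-- isometric sequences -/
def Iso (G : SimpleGraph V) (f : ℕ → V) (L : ℕ) : Prop :=
  ∀ x y : ℕ, x ≤ y → y ≤ L → G.dist (f x) (f y) = y - x

lemma iso_of_walk (hc : G.Connected) {a b : V} (p : G.Walk a b) (hp : p.length = G.dist a b) :
    Iso G p.getVert p.length := by
  intro x y hxy hy
  have hadj : ∀ k, k < p.length → G.Adj (p.getVert k) (p.getVert (k + 1)) :=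
    fun k hk => p.adj_getVert_succ hk
  have key : ∀ i j, i ≤ j → j ≤ p.length → G.dist (p.getVert i) (p.getVert j) ≤ j - i := by
    intro i j hij hj
    obtain ⟨d, rfl⟩ := Nat.exists_eq_add_of_le hij
    obtain ⟨q, hq, _, _⟩ := walk_fun (G := G) p.getVert i d fun k h1 h2 => hadj k (by omega)
    exact (dist_le q).trans (by omega)
  have k1 := key 0 x (Nat.zero_le _) (hxy.trans hy)
  have k2 := key x y hxy hy
  have k3 := key y p.length hy le_rfl
  rw [p.getVert_zero] at k1
  rw [p.getVert_length] at k3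
  have t1 := hc.dist_triangle (u := a) (v := p.getVert x) (w := b)
  have t2 := hc.dist_triangle (u := p.getVert x) (v := p.getVert y) (w := b)
  omega

lemma Iso.inj {f : ℕ → V} {L : ℕ} (h : Iso G f L) {x y : ℕ} (hx : x ≤ L)
    (hy : y ≤ L) (hxy : f x = f y) : x = y := by
  rcases le_total x y with h1 | h1
  · have := h x y h1 hy
    rw [hxy, dist_self] at this
    omega
  · have := h y x h1 hx
    rw [hxy, dist_self] at this
    omega

lemma Iso.adj {f : ℕ → V} {L : ℕ} (h : Iso G f L) {x y : ℕ} (hx : x ≤ L) (hy : y ≤ L) :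
    G.Adj (f x) (f y) ↔ (x + 1 = y ∨ y + 1 = x) := by
  rw [← dist_eq_one_iff_adj]
  rcases le_total x y with h1 | h1
  · rw [h x y h1 hy]
    omega
  · rw [dist_comm, h y x h1 hx]
    omega

lemma cyc_adj (n : ℕ) (u v : Fin n) (hn : 3 ≤ n) : (cycleGraph n).Adj u v ↔
    (u.val + 1 = v.val ∨ v.val + 1 = u.val ∨ (u.val = 0 ∧ v.val + 1 = n) ∨
      (v.val = 0 ∧ u.val + 1 = n)) := by
  rw [cycleGraph_adj']
  have hu := u.isLt
  have hv := v.isLt
  rcases lt_trichotomy u v with h | h | h
  · have h1 : (v - u).val = v.val - u.val := Fin.coe_sub_iff_le.2 h.le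
    have h2 : (u - v).val = n + u.val - v.val := Fin.coe_sub_iff_lt.2 h
    have h3 : u.val < v.val := h
    rw [h1, h2]
    omega
  · subst h
    have h1 : (u - u).val = u.val - u.val := Fin.coe_sub_iff_le.2 le_rfl
    rw [h1]
    omega
  · have h1 : (u - v).val = u.val - v.val := Fin.coe_sub_iff_le.2 h.le
    have h2 : (v - u).val = n + v.val - u.val := Fin.coe_sub_iff_lt.2 h
    have h3 : v.val < u.val := h
    rw [h1, h2]
    omega

/-- two paths closing up to an induced cycle -/
lemma hole (A B : ℕ → V) (D M : ℕ) (hD : 1 ≤ D)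
    (hA : ∀ i j, i ≤ D → j ≤ D → (G.Adj (A i) (A j) ↔ (i + 1 = j ∨ j + 1 = i)))
    (hAi : ∀ i j, i ≤ D → j ≤ D → A i = A j → i = j)
    (hB : ∀ i j, i ≤ M → j ≤ M → (G.Adj (B i) (B j) ↔ (i + 1 = j ∨ j + 1 = i)))
    (hBi : ∀ i j, i ≤ M → j ≤ M → B i = B j → i = j)
    (hAB : ∀ i j, i ≤ D → j ≤ M → A i ≠ B j)
    (hX : ∀ i j, i ≤ D → j ≤ M → (G.Adj (A i) (B j) ↔ ((i = D ∧ j = 0) ∨ (i = 0 ∧ j = M)))) :
    Nonempty (cycleGraph (D + M + 2) ↪g G) := by
  set f : Fin (D + M + 2) → V := fun k => if k.val ≤ D then A k.val else B (k.val - D - 1) with hf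
  have hinj : Function.Injective f := by
    intro a b hab
    have ha := a.isLt
    have hb := b.isLt
    rw [hf] at hab
    simp only at hab
    apply Fin.ext
    split_ifs at hab with h1 h2 h2
    · exact hAi _ _ h1 h2 hab
    · exact absurd hab (hAB _ _ h1 (by omega))
    · exact absurd hab.symm (hAB _ _ h2 (by omega))
    · have := hBi _ _ (by omega) (by omega) hab
      omega
  refine ⟨⟨⟨f, hinj⟩, ?_⟩⟩
  intro a b
  show G.Adj (f a) (f b) ↔ _
  rw [cyc_adj _ _ _ (by omega)]
  have ha := a.isLt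
  have hb := b.isLt
  rw [hf]
  simp only
  split_ifs with h1 h2 h2
  · rw [hA _ _ h1 h2]
    omega
  · rw [hX _ _ h1 (by omega)]
    omega
  · rw [G.adj_comm, hX _ _ h2 (by omega)]
    omega
  · rw [hB _ _ (by omega) (by omega)]
    omega

end Pool.Agent.Q130.IPC
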