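import Pool.Agent.Q130.IPC.Term

/-! # Long sequences give many lengths of induced cycles -/

set_option autoImplicit false

namespace Pool.Agent.Q130.IPC

open SimpleGraph Finset

variable {V : Type} {G : SimpleGraph V}

open scoped Classical in
theorem core (hc : G.Connected) {v : V} {f : ℕ → V} {L K : ℕ} {X : ℕ → ℕ} (hf : Iso G f L)
    (h : Seq G v f L X K) (ℓ : ℕ) (S : Finset ℕ) (hS : S.card ≤ ℓ)
    (hhole : ∀ n, 3 ≤ n → Nonempty (cycleGraph n ↪g G) → n ∈ S)
    (hK : (2 * 2 ^ (ℓ + 1) + 15) * 2 ^ (ℓ + 1) + 10 ≤ K) : False := by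
  have : Nonempty V := ⟨v⟩
  set t : ℕ := 2 ^ (ℓ + 1) with ht
  have ht2 : 2 ≤ t := by
    rw [ht, pow_succ]
    have : 0 < 2 ^ ℓ := by positivity
    omega
  set g : ℕ := 2 * t + 15 with hg
  -- centres
  have hcK : ∀ i, i < t → g * i + 5 + 5 ≤ K := by
    intro i hi
    have : g * i ≤ g * t := Nat.mul_le_mul_left _ hi.le
    omega
  have hcc : ∀ i j, i < j → g * i + g ≤ g * j := by
    intro i j hij
    calc g * i + g = g * (i + 1) := by ring
      _ ≤ g * j := Nat.mul_le_mul_left _ hij
  -- the root is far from the path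
  have hfar : ∀ x, x ≤ L → 3 ≤ G.dist v (f x) := by
    intro x hx
    by_contra hcon
    have k0 := hcK 0 (by omega)
    have k1 := hcK 1 (by omega)
    have n1 := near hc hf h (g * 0 + 5) (by omega) k0 v _ le_rfl SimpleGraph.dist_comm
      (by rw [SimpleGraph.dist_self]; omega) x hx (by omega)
    have n2 := near hc hf h (g * 1 + 5) (by omega) k1 v _ le_rfl SimpleGraph.dist_comm
      (by rw [SimpleGraph.dist_self]; omega) x hx (by omega)
    have e := (h.gap hc hf (g * 0 + 5 + 5) (g - 10) (by omega)).1
    have e2 : g * 0 + 5 + 5 + (g - 10) = g * 1 + 5 - 5 := by omega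
    rw [e2] at e
    omega
  have hterm := fun (i : ℕ) (hi : i < t) => terminal hc hf h hfar (g * i + 5) (by omega) (hcK i hi)
  choose! q m τ l r hqm hτm hiso hfar2 hnot hlr hrL hadjl hadjr hlocal hnear using hterm
  -- windows
  have hwin : ∀ i j, i < j → j < t → X (g * i + 5 + 5) + (g - 10) ≤ X (g * j + 5 - 5) := by
    intro i j hij hj
    have h1 := hcc i j hij
    have h2 := hcK j hj
    have e := (h.gap hc hf (g * i + 5 + 5) (g * j + 5 - 5 - (g * i + 5 + 5)) (by omega)).1
    have e2 : g * i + 5 + 5 + (g * j + 5 - 5 - (g * i + 5 + 5)) = g * j + 5 - 5 := by omega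
    rw [e2] at e
    omega
  have hl : ∀ i, i < t → X (g * i + 5 - 5) < l i ∧ l i < X (g * i + 5 + 5) := by
    intro i hi
    apply hnear i hi (τ i) (hτm i hi).le (l i) ((hlr i hi).trans (hrL i hi))
    rw [SimpleGraph.dist_eq_one_iff_adj.2 (hadjl i hi)]
    omega
  have hr : ∀ i, i < t → X (g * i + 5 - 5) < r i ∧ r i < X (g * i + 5 + 5) := by
    intro i hi
    apply hnear i hi (τ i) (hτm i hi).le (r i) (hrL i hi)
    rw [SimpleGraph.dist_eq_one_iff_adj.2 (hadjr i hi)]
    omega
  have hrl : ∀ i j, i < j → j < t → r i + (g - 10) < l j := by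
    intro i j hij hj
    have h1 := hwin i j hij hj
    have h2 := hr i (hij.trans hj)
    have h3 := hl j hj
    omega
  -- terminals are far from the other geodesics
  have hsep : ∀ i j, i < t → j < t → i ≠ j → ∀ s, s ≤ m j → 2 ≤ G.dist (q i (τ i)) (q j s) := by
    intro i j hi hj hij s hs
    by_contra hcon
    have t1 := hc.dist_triangle (u := q j s) (v := q i (τ i)) (w := f (l i))
    rw [SimpleGraph.dist_eq_one_iff_adj.2 (hadjl i hi), SimpleGraph.dist_comm] at t1
    have n1 := hnear j hj s hs (l i) ((hlr i hi).trans (hrL i hi)) (by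
      rw [SimpleGraph.dist_comm]
      have := t1
      rw [SimpleGraph.dist_comm (u := q j s) (v := q i (τ i))] at this
      omega)
    have n2 := hl i hi
    rcases Nat.lt_or_gt_of_ne hij with h' | h'
    · have := hwin i j h' hj
      omega
    · have := hwin j i h' hi
      omega
  -- the set `F`
  set F : Finset V := (range t).biUnion (fun i => (Icc (τ i) (m i)).image (q i)) with hF
  have memF : ∀ x, x ∈ F ↔ ∃ i, i < t ∧ ∃ s, τ i ≤ s ∧ s ≤ m i ∧ q i s = x := by
    intro x
    rw [hF, mem_biUnion]
    constructor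
    · rintro ⟨i, hi, hx⟩
      rw [mem_image] at hx
      obtain ⟨s, hs, hx⟩ := hx
      rw [mem_Icc] at hs
      exact ⟨i, mem_range.1 hi, s, hs.1, hs.2, hx⟩
    · rintro ⟨i, hi, s, h1, h2, hx⟩
      exact ⟨i, mem_range.2 hi, mem_image.2 ⟨s, mem_Icc.2 ⟨h1, h2⟩, hx⟩⟩
  set T : Finset V := (range t).image (fun i => q i (τ i)) with hT
  have memT : ∀ i, i < t → q i (τ i) ∈ T := fun i hi => mem_image.2 ⟨i, mem_range.2 hi, rfl⟩
  have hTcard : T.card ≤ t := card_image_le.trans (by rw [card_range])
  have hTF : T ⊆ F := by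
    intro x hx
    rw [hT, mem_image] at hx
    obtain ⟨i, hi, rfl⟩ := hx
    rw [memF]
    exact ⟨i, mem_range.1 hi, τ i, le_rfl, (hτm i (mem_range.1 hi)).le, rfl⟩
  have hFv : ∀ x ∈ F, Cn G (F : Set V) x v := by
    intro x hx
    rw [memF] at hx
    obtain ⟨i, hi, s, h1, h2, rfl⟩ := hx
    rw [← hqm i hi]
    apply Cn.of_fun (q i) s (m i) h2
    · intro k hk1 hk2
      rw [(hiso i hi).adj hk2.le (by omega)]
      exact Or.inl rfl
    · intro k hk1 hk2
      rw [mem_coe, memF]
      exact ⟨i, hi, k, by omega, hk2, rfl⟩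
  have hFc : ∀ x ∈ F, ∀ y ∈ F, Cn G (F : Set V) x y := fun x hx y hy =>
    (hFv x hx).trans (hFv y hy).symm
  -- terminals are leaves
  have hleaf : ∀ i, i < t → ∀ y ∈ F, G.Adj (q i (τ i)) y → y = q i (τ i + 1) := by
    intro i hi y hy hadj
    rw [memF] at hy
    obtain ⟨j, hj, s, h1, h2, rfl⟩ := hy
    by_cases hij : i = j
    · subst hij
      rw [(hiso i hi).adj (hτm i hi).le h2] at hadj
      rcases hadj with h' | h'
      · rw [h']
      · omega
    · have h3 := hsep i j hi hj hij s h2
      rw [SimpleGraph.dist_eq_one_iff_adj.2 hadj] at h3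
      omega
  obtain ⟨H, hTH, hHF, hHc, hmin⟩ := exists_min T (memT 0 (by omega)) F.card F le_rfl hTF hFc
  have hpath := fun (i j : ℕ) (hi : i < t) (hj : j < t) =>
    exists_path H hHc (hTH (memT i hi)) (hTH (memT j hj))
  choose! D p hp0 hpD hpH hpadj hpinj using hpath
  have hD1 : ∀ i j, i < t → j < t → i ≠ j → 1 ≤ D i j := by
    intro i j hi hj hij
    by_contra hcon
    have h0 : D i j = 0 := by omega
    have h1 := hpD i j hi hj
    rw [h0, hp0 i j hi hj] at h1
    have h2 := hsep i j hi hj hij (τ j) (hτm j hj).le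
    rw [h1, SimpleGraph.dist_self] at h2
    omega
  -- interior vertices
  have hint : ∀ i j, i < t → j < t → ∀ k, 0 < k → k < D i j → ∀ x, x ≤ L →
      2 ≤ G.dist (p i j k) (f x) := by
    intro i j hi hj k hk0 hkD x hx
    have hkF := hHF (hpH i j hi hj k)
    rw [memF] at hkF
    obtain ⟨a, ha, s, h1, h2, h3⟩ := hkF
    rw [← h3]
    apply hfar2 a ha s _ h2 x hx
    by_contra hcon
    have hs : s = τ a := by omega
    rw [hs] at h3
    have e1 := hleaf a ha _ (hHF (hpH i j hi hj (k - 1))) (by
      rw [h3, hpadj i j hi hj k (k - 1) hkD.le (by omega)]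
      omega)
    have e2 := hleaf a ha _ (hHF (hpH i j hi hj (k + 1))) (by
      rw [h3, hpadj i j hi hj k (k + 1) hkD.le (by omega)]
      omega)
    have e3 := hpinj i j hi hj (k - 1) (k + 1) (by omega) (by omega) (by rw [e1, e2])
    omega
  -- the holes
  have hholes : ∀ i j, i < j → j < t → D i j + (l j - r i) + 2 ∈ S := by
    intro i j hij hj
    have hi : i < t := hij.trans hj
    have hne : i ≠ j := hij.ne
    have hD := hD1 i j hi hj hne
    have hrl' := hrl i j hij hj
    have hlL : l j ≤ L := (hlr j hj).trans (hrL j hj)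
    apply hhole _ (by omega)
    apply hole (p i j) (fun b => f (l j - b)) (D i j) (l j - r i) hD
      (hpadj i j hi hj) (hpinj i j hi hj)
    · intro a b ha hb
      rw [hf.adj (by omega) (by omega)]
      omega
    · intro a b ha hb hab
      have := hf.inj (by omega) (by omega) hab
      omega
    · intro a b ha hb hab
      rcases Nat.eq_zero_or_pos a with h0 | h0
      · rw [h0, hp0 i j hi hj] at hab
        exact hnot i hi _ (by omega) hab
      · rcases Nat.lt_or_ge a (D i j) with h1 | h1
        · have := hint i j hi hj a h0 h1 (l j - b) (by omega)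
          rw [hab, SimpleGraph.dist_self] at this
          omega
        · have h2 : a = D i j := by omega
          rw [h2, hpD i j hi hj] at hab
          exact hnot j hj _ (by omega) hab
    · intro a b ha hb
      rcases Nat.eq_zero_or_pos a with h0 | h0
      · rw [h0, hp0 i j hi hj]
        constructor
        · intro hadj
          have := hlocal i hi _ (by omega) hadj
          omega
        · rintro (⟨h1, h2⟩ | ⟨h1, h2⟩)
          · omega
          · rw [h2]
            have e : l j - (l j - r i) = r i := by omega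
            rw [e]
            exact hadjr i hi
      · rcases Nat.lt_or_ge a (D i j) with h1 | h1
        · constructor
          · intro hadj
            have := hint i j hi hj a h0 h1 (l j - b) (by omega)
            rw [SimpleGraph.dist_eq_one_iff_adj.2 hadj] at this
            omega
          · rintro (⟨h2, h3⟩ | ⟨h2, h3⟩) <;> omega
        · have h2 : a = D i j := by omega
          rw [h2, hpD i j hi hj]
          constructor
          · intro hadj
            have := hlocal j hj _ (by omega) hadj
            omega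
          · rintro (⟨h3, h4⟩ | ⟨h3, h4⟩)
            · rw [h4, Nat.sub_zero]
              exact hadjl j hj
            · omega
  -- selection
  obtain ⟨i, j, k, w, _, hij, hjk, hkw, hw, s1, s2⟩ := select ℓ S hS 0 t le_rfl
    (fun i j => D i j + (l j - r i) + 2) (by
      intro i j _ hij hj
      exact hholes i j hij (by omega))
  rw [zero_add] at hw
  have hi : i < t := by omega
  have hj : j < t := by omega
  have hk : k < t := by omega
  have g1 := hrl i j hij hj
  have g2 := hrl j k hjk hk
  have g3 := hrl k w hkw hw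
  have b1 := hlr i hi
  have b2 := hlr j hj
  have b3 := hlr k hk
  have b4 := hlr w hw
  have dle : ∀ a b, a < t → b < t → del G H (q a (τ a)) (q b (τ b)) ≤ D a b + 1 := by
    intro a b ha hb
    have := del_le H (p a b) (D a b) (fun c _ => hpH a b ha hb c) (fun c hc => by
      rw [hpadj a b ha hb c (c + 1) hc.le (by omega)]
      exact Or.inl rfl)
    rw [hp0 a b ha hb, hpD a b ha hb] at this
    exact this
  have dge : ∀ a b, a < t → b < t → D a b + 1 ≤ del G H (q a (τ a)) (q b (τ b)) + 2 * t := by
    intro a b ha hb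
    have := le_del H T hTH hHc hmin (p a b) (D a b) (fun c _ => hpH a b ha hb c) (fun c hc => by
      rw [hpadj a b ha hb c (c + 1) hc.le (by omega)]
      exact Or.inl rfl) (hpinj a b ha hb)
    rw [hp0 a b ha hb, hpD a b ha hb] at this
    omega
  have m1 := dle i k hi hk
  have m2 := dle j w hj hw
  have m3 := dle i w hi hw
  have m4 := dle j k hj hk
  have m5 := dge i j hi hj
  have m6 := dge k w hk hw
  exact four H hHc (hTH (memT i hi)) (hTH (memT j hj)) (hTH (memT k hk)) (hTH (memT w hw))
    (by omega) (by omega)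

end Pool.Agent.Q130.IPC
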