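import Pool.Agent.Q130.IPC.Basic

/-! # Connection inside vertex sets, cut vertices, the four point condition -/

set_option autoImplicit false

namespace Pool.Agent.Q130.IPC

open SimpleGraph Finset

variable {V : Type} (G : SimpleGraph V)

/-- `x` and `y` are joined by a walk inside `A` -/
def Cn (A : Set V) (x y : V) : Prop := ∃ p : G.Walk x y, ∀ z ∈ p.support, z ∈ A

variable {G}

lemma Cn.refl {A : Set V} {x : V} (h : x ∈ A) : Cn G A x x :=
  ⟨Walk.nil, by intro z hz; rw [Walk.support_nil, List.mem_singleton] at hz; rwa [hz]⟩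

lemma Cn.symm {A : Set V} {x y : V} (h : Cn G A x y) : Cn G A y x := by
  obtain ⟨p, hp⟩ := h
  exact ⟨p.reverse, by intro z hz; rw [Walk.support_reverse, List.mem_reverse] at hz; exact hp z hz⟩

lemma Cn.trans {A : Set V} {x y z : V} (h : Cn G A x y) (h' : Cn G A y z) : Cn G A x z := by
  obtain ⟨p, hp⟩ := h
  obtain ⟨q, hq⟩ := h'
  refine ⟨p.append q, ?_⟩
  intro w hw
  rw [Walk.mem_support_append_iff] at hw
  rcases hw with hw | hw
  · exact hp w hw
  · exact hq w hw

lemma Cn.mono {A B : Set V} (hAB : A ⊆ B) {x y : V} (h : Cn G A x y) : Cn G B x y := by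
  obtain ⟨p, hp⟩ := h
  exact ⟨p, fun z hz => hAB (hp z hz)⟩

lemma Cn.left {A : Set V} {x y : V} (h : Cn G A x y) : x ∈ A := by
  obtain ⟨p, hp⟩ := h
  exact hp _ p.start_mem_support

lemma Cn.right {A : Set V} {x y : V} (h : Cn G A x y) : y ∈ A := h.symm.left

lemma Cn.of_adj {A : Set V} {x y : V} (hx : x ∈ A) (hy : y ∈ A) (h : G.Adj x y) : Cn G A x y := by
  refine ⟨Walk.cons h Walk.nil, ?_⟩
  intro z hz
  rw [Walk.support_cons, Walk.support_nil, List.mem_cons, List.mem_singleton] at hz
  rcases hz with rfl | rfl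
  · exact hx
  · exact hy

lemma Cn.of_fun {A : Set V} (f : ℕ → V) (i j : ℕ) (hij : i ≤ j)
    (h : ∀ k, i ≤ k → k < j → G.Adj (f k) (f (k + 1))) (hf : ∀ k, i ≤ k → k ≤ j → f k ∈ A) :
    Cn G A (f i) (f j) := by
  obtain ⟨d, rfl⟩ := Nat.exists_eq_add_of_le hij
  obtain ⟨p, _, hp, _⟩ := walk_fun (G := G) f i d fun k h1 h2 => h k h1 (by omega)
  refine ⟨p, ?_⟩
  intro z hz
  obtain ⟨k, h1, h2, rfl⟩ := hp z hz
  exact hf k h1 (by omega)

/-- first hit of one of two vertices -/
lemma cn_or {H : Set V} {u u' : V} (hu : u ∈ H) (hu' : u' ∈ H) (hne : u ≠ u') {x : V}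
    (h : Cn G H x u) : Cn G (H \ {u'}) x u ∨ Cn G (H \ {u}) x u' := by
  obtain ⟨p, hp⟩ := h
  induction p with
  | nil => exact Or.inl (Cn.refl ⟨hu, hne⟩)
  | @cons x y u hadj p ih =>
    have hx : x ∈ H := hp x (by rw [Walk.support_cons]; exact List.mem_cons_self)
    by_cases h1 : x = u'
    · subst h1
      exact Or.inr (Cn.refl ⟨hu', fun h => hne h.symm⟩)
    · by_cases h2 : x = u
      · subst h2
        exact Or.inl (Cn.refl ⟨hx, h1⟩)
      · rcases ih hu hne (fun z hz => hp z (by rw [Walk.support_cons]; exact List.mem_cons_of_mem _ hz))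
          with h3 | h3
        · exact Or.inl ((Cn.of_adj (A := H \ {u'}) ⟨hx, h1⟩ h3.left hadj).trans h3)
        · exact Or.inr ((Cn.of_adj (A := H \ {u}) ⟨hx, h2⟩ h3.left hadj).trans h3)

/-- incompatible splits -/
lemma incompat {H : Set V} {u u' a b c d : V} (hu : u ∈ H) (hu' : u' ∈ H)
    (hH : ∀ x ∈ H, ∀ y ∈ H, Cn G H x y) (ha : a ∈ H) (hb : b ∈ H) (hc : c ∈ H) (hd : d ∈ H)
    (h1 : Cn G (H \ {u}) a b) (h2 : ¬ Cn G (H \ {u}) a c) (h3 : ¬ Cn G (H \ {u}) a d)
    (h4 : ¬ Cn G (H \ {u'}) a b) (h5 : ¬ Cn G (H \ {u'}) c d) : False := by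
  have hne : u ≠ u' := by rintro rfl; exact h4 h1
  by_cases k : Cn G (H \ {u}) a u'
  · have e1 : Cn G (H \ {u'}) c u := by
      rcases cn_or hu hu' hne (hH c hc u hu) with h | h
      · exact h
      · exact absurd (k.trans h.symm) h2
    have e2 : Cn G (H \ {u'}) d u := by
      rcases cn_or hu hu' hne (hH d hd u hu) with h | h
      · exact h
      · exact absurd (k.trans h.symm) h3
    exact h5 (e1.trans e2.symm)
  · have e1 : Cn G (H \ {u'}) a u := by
      rcases cn_or hu hu' hne (hH a ha u hu) with h | h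
      · exact h
      · exact absurd h k
    have e2 : Cn G (H \ {u'}) b u := by
      rcases cn_or hu hu' hne (hH b hb u hu) with h | h
      · exact h
      · exact absurd (h1.trans h) k
    exact h4 (e1.trans e2.symm)

open scoped Classical in
/-- the number of vertices of `H` that separate `a` and `b` -/
noncomputable def del (G : SimpleGraph V) (H : Finset V) (a b : V) : ℕ :=
  (H.filter (fun u => ¬ Cn G (↑H \ {u}) a b)).card

open scoped Classical in
/-- a path has at least as many vertices as there are separating vertices -/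
lemma del_le (H : Finset V) (f : ℕ → V) (D : ℕ) (hf : ∀ k ≤ D, f k ∈ H)
    (hadj : ∀ k, k < D → G.Adj (f k) (f (k + 1))) : del G H (f 0) (f D) ≤ D + 1 := by
  have h1 : H.filter (fun u => ¬ Cn G (↑H \ {u}) (f 0) (f D)) ⊆ (range (D + 1)).image f := by
    intro u hu
    rw [mem_filter] at hu
    by_contra hcon
    apply hu.2
    apply Cn.of_fun f 0 D (Nat.zero_le _) (fun k _ hk => hadj k hk)
    intro k _ hk
    refine ⟨hf k hk, ?_⟩
    intro h
    apply hcon
    rw [mem_image]
    exact ⟨k, mem_range.2 (by omega), h⟩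
  calc del G H (f 0) (f D) ≤ ((range (D + 1)).image f).card := card_le_card h1
    _ ≤ (range (D + 1)).card := card_image_le
    _ = D + 1 := card_range _

open scoped Classical in
/-- and not many more -/
lemma le_del (H T : Finset V) (hT : T ⊆ H) (hH : ∀ x ∈ H, ∀ y ∈ H, Cn G (H : Set V) x y)
    (hmin : ∀ u ∈ H, u ∉ T → ∃ c ∈ T, ∃ c' ∈ T, ¬ Cn G (↑H \ {u}) c c')
    (f : ℕ → V) (D : ℕ) (hf : ∀ k ≤ D, f k ∈ H)
    (hadj : ∀ k, k < D → G.Adj (f k) (f (k + 1)))
    (hinj : ∀ i j, i ≤ D → j ≤ D → f i = f j → i = j) :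
    D + 1 ≤ del G H (f 0) (f D) + 2 * T.card := by
  set A := (range (D + 1)).image f with hA
  have hAcard : A.card = D + 1 := by
    rw [hA, card_image_of_injOn, card_range]
    intro i hi j hj hij
    rw [coe_range, Set.mem_Iio] at hi hj
    exact hinj i j (by omega) (by omega) hij
  have hAH : A ⊆ H := by
    intro x hx
    rw [hA, mem_image] at hx
    obtain ⟨k, hk, rfl⟩ := hx
    exact hf k (by rw [mem_range] at hk; omega)
  set B := A.filter (fun u => u ∉ T ∧ Cn G (↑H \ {u}) (f 0) (f D)) with hB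
  have hcover : A ⊆ (H.filter (fun u => ¬ Cn G (↑H \ {u}) (f 0) (f D))) ∪ (T ∪ B) := by
    intro u hu
    rw [mem_union, mem_union]
    by_cases h1 : Cn G (↑H \ {u}) (f 0) (f D)
    · by_cases h2 : u ∈ T
      · exact Or.inr (Or.inl h2)
      · right; right
        rw [hB, mem_filter]
        exact ⟨hu, h2, h1⟩
    · left
      rw [mem_filter]
      exact ⟨hAH hu, h1⟩
  have hBcard : B.card ≤ T.card := by
    have hex : ∀ u ∈ B, ∃ c ∈ T, ¬ Cn G (↑H \ {u}) (f 0) c := by
      intro u hu
      rw [hB, mem_filter] at hu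
      obtain ⟨c, hc, c', hc', hcc⟩ := hmin u (hAH hu.1) hu.2.1
      by_contra hcon
      push Not at hcon
      exact hcc ((hcon c hc).symm.trans (hcon c' hc'))
    choose! φ hφ1 hφ2 using hex
    apply card_le_card_of_injOn φ (fun u hu => hφ1 u hu)
    -- injectivity
    have key : ∀ k k', k < k' → k' ≤ D → f k ∈ B → f k' ∈ B → φ (f k) = φ (f k') → False := by
      intro k k' hkk hk' hB1 hB2 heq
      have hB1' := hB1
      have hB2' := hB2
      rw [hB, mem_filter] at hB1' hB2'
      have hne : f k ≠ f k' := fun h => by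
        have := hinj k k' (by omega) hk' h
        omega
      have p1 : Cn G (↑H \ {f k'}) (f 0) (f k) := by
        apply Cn.of_fun f 0 k (Nat.zero_le _) (fun m _ hm => hadj m (by omega))
        intro m _ hm
        refine ⟨hf m (by omega), ?_⟩
        intro h
        have := hinj m k' (by omega) hk' h
        omega
      have p2 : Cn G (↑H \ {f k}) (f k') (f D) := by
        apply Cn.of_fun f k' D hk' (fun m _ hm => hadj m (by omega))
        intro m hm1 hm2
        refine ⟨hf m (by omega), ?_⟩
        intro h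
        have := hinj m k (by omega) (by omega) h
        omega
      set c := φ (f k) with hc
      have hcH : c ∈ H := hT (hφ1 _ hB1)
      have n1 : ¬ Cn G (↑H \ {f k}) (f 0) c := hφ2 _ hB1
      have n2 : ¬ Cn G (↑H \ {f k'}) (f 0) c := by rw [heq]; exact hφ2 _ hB2
      rcases cn_or (hf k (by omega)) (hf k' hk') hne (hH c hcH (f k) (hf k (by omega))) with h | h
      · exact n2 (p1.trans h.symm)
      · exact n1 (hB1'.2.2.trans (p2.symm.trans h.symm))
    intro u hu u' hu' h
    have hu1 := hu
    have hu1' := hu'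
    rw [mem_coe, hB, mem_filter, hA, mem_image] at hu1 hu1'
    obtain ⟨⟨k, hk, rfl⟩, _⟩ := hu1
    obtain ⟨⟨k', hk', rfl⟩, _⟩ := hu1'
    rw [mem_range] at hk hk'
    rcases lt_trichotomy k k' with h1 | h1 | h1
    · exact (key k k' h1 (by omega) hu hu' h).elim
    · rw [h1]
    · exact (key k' k h1 (by omega) hu' hu h.symm).elim
  have h1 := card_le_card hcover
  have h2 := card_union_le (H.filter (fun u => ¬ Cn G (↑H \ {u}) (f 0) (f D))) (T ∪ B)
  have h3 := card_union_le T B
  unfold del
  omega

open scoped Classical in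
lemma logic (R : V → V → Prop) (hs : ∀ x y, R x y → R y x) (ht : ∀ x y z, R x y → R y z → R x z)
    (a b c d : V) (h : (if R a c then 0 else 1) + (if R b d then 0 else 1) <
      (if R a b then 0 else 1) + (if R c d then 0 else 1)) :
    ¬ R a b ∧ ¬ R c d ∧ ¬ R a d ∧ ¬ R b c ∧ (R a c ∨ R b d) := by
  by_cases k1 : R a b
  · by_cases k2 : R c d
    · rw [if_pos k1, if_pos k2] at h
      omega
    · rw [if_pos k1, if_neg k2] at h
      by_cases k3 : R a c
      · by_cases k4 : R b d
        · exact absurd (ht _ _ _ (hs _ _ k3) (ht _ _ _ k1 k4)) k2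
        · rw [if_pos k3, if_neg k4] at h
          omega
      · rw [if_neg k3] at h
        omega
  · by_cases k2 : R c d
    · rw [if_neg k1, if_pos k2] at h
      by_cases k3 : R a c
      · by_cases k4 : R b d
        · exact absurd (ht _ _ _ k3 (ht _ _ _ k2 (hs _ _ k4))) k1
        · rw [if_pos k3, if_neg k4] at h
          omega
      · rw [if_neg k3] at h
        omega
    · refine ⟨k1, k2, ?_, ?_, ?_⟩
      · intro k5
        by_cases k3 : R a c
        · exact k2 (ht _ _ _ (hs _ _ k3) k5)
        · by_cases k4 : R b d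
          · exact k1 (ht _ _ _ k5 (hs _ _ k4))
          · rw [if_neg k1, if_neg k2, if_neg k3, if_neg k4] at h
            omega
      · intro k5
        by_cases k3 : R a c
        · exact k1 (ht _ _ _ k3 (hs _ _ k5))
        · by_cases k4 : R b d
          · exact k2 (ht _ _ _ (hs _ _ k5) k4)
          · rw [if_neg k1, if_neg k2, if_neg k3, if_neg k4] at h
            omega
      · by_contra hcon
        push Not at hcon
        rw [if_neg k1, if_neg k2, if_neg hcon.1, if_neg hcon.2] at h
        omega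

open scoped Classical in
/-- the four point condition -/
lemma four (H : Finset V) (hH : ∀ x ∈ H, ∀ y ∈ H, Cn G (H : Set V) x y) {a b c d : V}
    (ha : a ∈ H) (hb : b ∈ H) (hc : c ∈ H) (hd : d ∈ H)
    (h1 : del G H a c + del G H b d + 8 < del G H a b + del G H c d)
    (h2 : del G H a d + del G H b c + 8 < del G H a b + del G H c d) : False := by
  set s : V → V → V → ℕ := fun u x y => if Cn G (↑H \ {u}) x y then 0 else 1 with hs
  have hdel : ∀ x y, del G H x y = ∑ u ∈ H, s u x y := by
    intro x y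
    unfold del
    rw [card_filter]
    refine sum_congr rfl fun u _ => ?_
    rw [hs]
    by_cases h : Cn G (↑H \ {u}) x y
    · simp [h]
    · simp [h]
  have hex : ∀ p q r t : V, del G H p q + del G H r t + 8 < del G H a b + del G H c d →
      ∃ u ∈ H, u ≠ a ∧ u ≠ b ∧ u ≠ c ∧ u ≠ d ∧ s u p q + s u r t < s u a b + s u c d := by
    intro p q r t hlt
    by_contra hcon
    push Not at hcon
    have hle : ∀ u ∈ H, s u a b + s u c d ≤ (s u p q + s u r t) +
        (if u ∈ ({a, b, c, d} : Finset V) then 2 else 0) := by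
      intro u hu
      have b1 : s u a b ≤ 1 := by rw [hs]; simp only; split_ifs <;> omega
      have b2 : s u c d ≤ 1 := by rw [hs]; simp only; split_ifs <;> omega
      by_cases hm : u ∈ ({a, b, c, d} : Finset V)
      · rw [if_pos hm]
        omega
      · rw [if_neg hm]
        simp only [mem_insert, mem_singleton, not_or] at hm
        have := hcon u hu hm.1 hm.2.1 hm.2.2.1 hm.2.2.2
        omega
    have hsum := sum_le_sum hle
    rw [sum_add_distrib, sum_add_distrib, sum_add_distrib, ← hdel, ← hdel, ← hdel, ← hdel] at hsum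
    have h8 : ∑ u ∈ H, (if u ∈ ({a, b, c, d} : Finset V) then 2 else 0) ≤ 8 := by
      rw [← sum_filter, sum_const, smul_eq_mul]
      have h9 : (H.filter (fun u => u ∈ ({a, b, c, d} : Finset V))).card ≤ 4 := by
        calc (H.filter (fun u => u ∈ ({a, b, c, d} : Finset V))).card ≤
              ({a, b, c, d} : Finset V).card := card_le_card (by intro x hx; exact (mem_filter.1 hx).2)
          _ ≤ 4 := card_le_four
      omega
    omega
  obtain ⟨u, hu, ua, ub, uc, ud, hlt⟩ := hex a c b d h1
  obtain ⟨u', hu', ua', ub', uc', ud', hlt'⟩ := hex a d b c h2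
  have t1 := logic (Cn G (↑H \ {u})) (fun x y h => h.symm) (fun x y z h h' => h.trans h') a b c d hlt
  have t2 := logic (Cn G (↑H \ {u'})) (fun x y h => h.symm) (fun x y z h h' => h.trans h') a b d c
    (by
      have e : s u' c d = s u' d c := by
        rw [hs]
        simp only
        have : Cn G (↑H \ {u'}) c d ↔ Cn G (↑H \ {u'}) d c := ⟨fun h => h.symm, fun h => h.symm⟩
        simp only [this]
      rw [e] at hlt'
      exact hlt')
  obtain ⟨a1, a2, a3, a4, a5⟩ := t1
  obtain ⟨b1, b2, b3, b4, _⟩ := t2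
  rcases a5 with a5 | a5
  · exact incompat hu hu' hH ha hc hb hd a5 a1 a3 b3 b4
  · exact incompat hu hu' hH hb hd ha hc a5 (fun h => a1 h.symm) a4 b4 b3

end Pool.Agent.Q130.IPC
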