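import Pool.Agent.Q130.IPC.Core

/-! # Covering a path by monotone pieces -/

set_option autoImplicit false

namespace Pool.Agent.Q130.IPC

open SimpleGraph Finset

variable {V : Type} {G : SimpleGraph V}

/-- a monotone piece lies on a geodesic from the root -/
lemma piece (hc : G.Connected) (v : V) {f : ℕ → V} {L : ℕ} (hf : Iso G f L) {a b : ℕ}
    (hab : a ≤ b) (hb : b ≤ L) (hm : Mono G v f a b) :
    ∃ (e : V) (Q : G.Walk v e), Q.length = G.dist v e ∧
      ∀ x, a ≤ x → x ≤ b → f x ∈ Q.support := by
  obtain ⟨d, rfl⟩ := Nat.exists_eq_add_of_le hab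
  obtain ⟨p, hp, _, hs⟩ := walk_fun (G := G) f a d fun k h1 h2 => by
    rw [hf.adj (by omega) (by omega)]
    exact Or.inl rfl
  rcases hm with hm | hm
  · obtain ⟨q, hq⟩ := hc.exists_walk_length_eq_dist v (f a)
    refine ⟨_, q.append p, ?_, ?_⟩
    · rw [Walk.length_append, hq, hp, hm]
      omega
    · intro x h1 h2
      rw [Walk.mem_support_append_iff]
      exact Or.inr (hs x h1 h2)
  · obtain ⟨q, hq⟩ := hc.exists_walk_length_eq_dist v (f (a + d))
    refine ⟨_, q.append p.reverse, ?_, ?_⟩
    · rw [Walk.length_append, Walk.length_reverse, hq, hp, hm]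
      omega
    · intro x h1 h2
      rw [Walk.mem_support_append_iff, Walk.support_reverse, List.mem_reverse]
      exact Or.inr (hs x h1 h2)

/-- greedy cover -/
lemma greedy (v : V) (f : ℕ → V) (L : ℕ) (K : ℕ) : ∀ s, s ≤ L →
    (∃ X : ℕ → ℕ, X 0 = s ∧ Seq G v f L X K) ∨
    (∃ a b : ℕ → ℕ, (∀ i, i < K → s ≤ a i ∧ a i ≤ b i ∧ b i ≤ L ∧ Mono G v f (a i) (b i)) ∧
      ∀ x, s ≤ x → x ≤ L → ∃ i, i < K ∧ a i ≤ x ∧ x ≤ b i) := by
  induction K with
  | zero =>
    intro s hs
    left
    exact ⟨fun _ => s, rfl, ⟨fun i hi => absurd hi (by omega), fun i hi => absurd hi (by omega), hs⟩⟩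
  | succ K ih =>
    intro s hs
    have hself : Mono G v f s s := Or.inl (by simp)
    obtain ⟨y, y1, y2, y3, y4⟩ := exists_last (fun y => Mono G v f s y) L s hs hself
    rcases Nat.lt_or_ge y L with hy | hy
    · rcases ih (y + 1) (by omega) with ⟨X, hX0, hX⟩ | ⟨a, b, hab, hcov⟩
      · left
        refine ⟨fun i => if i = 0 then s else X (i - 1), by simp, ⟨?_, ?_, ?_⟩⟩
        · intro i hi
          rcases Nat.eq_zero_or_pos i with h0 | h0
          · subst h0
            simp only [if_true, Nat.zero_add, Nat.one_ne_zero, if_false, Nat.sub_self, hX0]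
            omega
          · have h1 := hX.lt (i - 1) (by omega)
            have e : i - 1 + 1 = i := by omega
            rw [e] at h1
            simp only [h0.ne', if_false, Nat.add_sub_cancel]
            rw [if_neg (by omega)]
            exact h1
        · intro i hi
          rcases Nat.eq_zero_or_pos i with h0 | h0
          · subst h0
            simp only [if_true, Nat.zero_add, Nat.one_ne_zero, if_false, Nat.sub_self, hX0]
            exact y4 (y + 1) (by omega) (by omega)
          · have h1 := hX.non (i - 1) (by omega)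
            have e : i - 1 + 1 = i := by omega
            rw [e] at h1
            simp only [h0.ne', if_false, Nat.add_sub_cancel]
            rw [if_neg (by omega)]
            exact h1
        · simp only [Nat.add_sub_cancel]
          rw [if_neg (by omega)]
          exact hX.le
      · right
        refine ⟨fun i => if i = K then s else a i, fun i => if i = K then y else b i, ?_, ?_⟩
        · intro i hi
          by_cases h0 : i = K
          · simp only [h0, if_true]
            exact ⟨le_rfl, y1, y2, y3⟩
          · simp only [h0, if_false]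
            obtain ⟨c1, c2, c3, c4⟩ := hab i (by omega)
            exact ⟨by omega, c2, c3, c4⟩
        · intro x hx1 hx2
          rcases Nat.lt_or_ge y x with h0 | h0
          · obtain ⟨i, hi, c1, c2⟩ := hcov x (by omega) hx2
            refine ⟨i, by omega, ?_⟩
            have : i ≠ K := by omega
            simp only [this, if_false]
            exact ⟨c1, c2⟩
          · refine ⟨K, by omega, ?_⟩
            simp only [if_true]
            exact ⟨hx1, h0⟩
    · right
      refine ⟨fun _ => s, fun _ => y, fun i _ => ⟨le_rfl, y1, y2, y3⟩, ?_⟩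
      intro x hx1 hx2
      exact ⟨0, by omega, hx1, hx2.trans hy⟩

end Pool.Agent.Q130.IPC
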