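import Pool.Agent.Q130.IPC.Cut

/-! # Minimal connected sets, induced paths, a selection lemma -/

set_option autoImplicit false

namespace Pool.Agent.Q130.IPC

open SimpleGraph Finset

variable {V : Type} {G : SimpleGraph V}

open scoped Classical in
/-- minimal connected sets -/
lemma exists_min (T : Finset V) {a : V} (ha : a ∈ T) (n : ℕ) : ∀ F : Finset V, F.card ≤ n → T ⊆ F →
    (∀ x ∈ F, ∀ y ∈ F, Cn G (F : Set V) x y) →
    ∃ H : Finset V, T ⊆ H ∧ H ⊆ F ∧ (∀ x ∈ H, ∀ y ∈ H, Cn G (H : Set V) x y) ∧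
      ∀ u ∈ H, u ∉ T → ∃ c ∈ T, ∃ c' ∈ T, ¬ Cn G (↑H \ {u}) c c' := by
  induction n with
  | zero =>
    intro F hF hT
    have h1 : F.card = 0 := by omega
    rw [card_eq_zero] at h1
    have := hT ha
    rw [h1] at this
    simp at this
  | succ n ih =>
    intro F hF hT hc
    by_cases hmin : ∀ u ∈ F, u ∉ T → ∃ c ∈ T, ∃ c' ∈ T, ¬ Cn G (↑F \ {u}) c c'
    · exact ⟨F, hT, Subset.rfl, hc, hmin⟩
    · push Not at hmin
      obtain ⟨u, hu, huT, hcc⟩ := hmin
      set F' := F.filter (fun x => Cn G (↑F \ {u}) a x) with hF'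
      have hsub : F' ⊆ F := filter_subset _ _
      have huF' : u ∉ F' := by
        intro h
        rw [hF', mem_filter] at h
        exact h.2.right.2 rfl
      have hcard : F'.card < F.card := card_lt_card ⟨hsub, fun h => huF' (h hu)⟩
      have hT' : T ⊆ F' := by
        intro x hx
        rw [hF', mem_filter]
        exact ⟨hT hx, hcc a ha x hx⟩
      have hca : ∀ x ∈ F', Cn G (F' : Set V) a x := by
        intro x hx
        have hx2 := hx
        rw [hF', mem_filter] at hx2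
        obtain ⟨_, p, hp⟩ := hx2
        refine ⟨p, ?_⟩
        intro z hz
        rw [mem_coe, hF', mem_filter]
        refine ⟨(hp z hz).1, p.takeUntil z hz, ?_⟩
        intro w hw
        exact hp w (p.support_takeUntil_subset_support hz hw)
      obtain ⟨H, h1, h2, h3, h4⟩ := ih F' (by omega) hT' (fun x hx y hy =>
        (hca x hx).symm.trans (hca y hy))
      exact ⟨H, h1, h2.trans hsub, h3, h4⟩

/-- induced paths -/
lemma exists_path (H : Finset V) (hH : ∀ x ∈ H, ∀ y ∈ H, Cn G (H : Set V) x y) {x y : V}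
    (hx : x ∈ H) (hy : y ∈ H) :
    ∃ (D : ℕ) (f : ℕ → V), f 0 = x ∧ f D = y ∧ (∀ k, f k ∈ H) ∧
      (∀ i j, i ≤ D → j ≤ D → (G.Adj (f i) (f j) ↔ (i + 1 = j ∨ j + 1 = i))) ∧
      (∀ i j, i ≤ D → j ≤ D → f i = f j → i = j) := by
  have hconn : (G.induce (H : Set V)).Connected := by
    have : Nonempty (H : Set V) := ⟨⟨x, hx⟩⟩
    refine ⟨?_⟩
    rintro ⟨a, ha⟩ ⟨b, hb⟩
    obtain ⟨p, hp⟩ := hH a ha b hb
    exact ⟨p.induce (H : Set V) hp⟩
  obtain ⟨p, hp⟩ := hconn.exists_walk_length_eq_dist ⟨x, hx⟩ ⟨y, hy⟩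
  have hiso := iso_of_walk hconn p hp
  refine ⟨p.length, fun k => (p.getVert k : V), ?_, ?_, ?_, ?_, ?_⟩
  · simp only [Walk.getVert_zero]
  · simp only [Walk.getVert_length]
  · intro k
    exact (p.getVert k).2
  · intro i j hi hj
    rw [← hiso.adj hi hj]
    rfl
  · intro i j hi hj h
    exact hiso.inj hi hj (Subtype.ext h)

/-- selection -/
lemma select (ℓ : ℕ) : ∀ S : Finset ℕ, S.card ≤ ℓ → ∀ A t : ℕ, 2 ^ (ℓ + 1) ≤ t →
    ∀ s : ℕ → ℕ → ℕ, (∀ i j, A ≤ i → i < j → j < A + t → s i j ∈ S) →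
    ∃ i j k l, A ≤ i ∧ i < j ∧ j < k ∧ k < l ∧ l < A + t ∧
      s i k + s j l ≤ s i j + s k l ∧ s i l + s j k ≤ s i j + s k l := by
  classical
  induction ℓ with
  | zero =>
    intro S hS A t ht s hs
    have h1 : S.card = 0 := by omega
    rw [card_eq_zero] at h1
    have h2 := hs A (A + 1) le_rfl (by omega) (by
      have : 2 ^ (0 + 1) = 2 := by norm_num
      omega)
    rw [h1] at h2
    simp at h2
  | succ ℓ ih =>
    intro S hS A t ht s hs
    have hpow : 2 ^ (ℓ + 1 + 1) = 2 * 2 ^ (ℓ + 1) := by ring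
    have hpos : 0 < 2 ^ (ℓ + 1) := by positivity
    rw [hpow] at ht
    have hne : S.Nonempty := ⟨_, hs A (A + 1) le_rfl (by omega) (by omega)⟩
    set M := S.max' hne with hM
    have hSM : (S.erase M).card ≤ ℓ := by
      rw [card_erase_of_mem (max'_mem _ _)]
      omega
    by_cases hex : ∃ j, ∃ i, A ≤ i ∧ i < j ∧ j < A + t ∧ s i j = M
    · set j0 := Nat.find hex with hj0
      obtain ⟨i0, a1, a2, a3, a4⟩ := Nat.find_spec hex
      by_cases hsep : ∃ i j, j0 < i ∧ i < j ∧ j < A + t ∧ s i j = M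
      · obtain ⟨i, j, b1, b2, b3, b4⟩ := hsep
        rw [← hj0] at a2 a3 a4
        refine ⟨i0, j0, i, j, a1, a2, b1, b2, b3, ?_, ?_⟩
        · rw [a4, b4]
          exact add_le_add (le_max' _ _ (hs _ _ a1 (by omega) (by omega)))
            (le_max' _ _ (hs _ _ (by omega) (by omega) (by omega)))
        · rw [a4, b4]
          exact add_le_add (le_max' _ _ (hs _ _ a1 (by omega) (by omega)))
            (le_max' _ _ (hs _ _ (by omega) (by omega) (by omega)))
      · push Not at hsep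
        rw [← hj0] at a2 a3 a4
        rcases Nat.lt_or_ge (j0 - A) (2 ^ (ℓ + 1)) with h | h
        · obtain ⟨i, j, k, l, b1, b2, b3, b4, b5, b6, b7⟩ := ih (S.erase M) hSM (j0 + 1)
            (A + t - j0 - 1) (by omega) s (by
              intro i j c1 c2 c3
              rw [mem_erase]
              refine ⟨hsep i j (by omega) c2 (by omega), hs i j (by omega) c2 (by omega)⟩)
          exact ⟨i, j, k, l, by omega, b2, b3, b4, by omega, b6, b7⟩
        · obtain ⟨i, j, k, l, b1, b2, b3, b4, b5, b6, b7⟩ := ih (S.erase M) hSM A (j0 - A) h s (by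
              intro i j c1 c2 c3
              rw [mem_erase]
              refine ⟨?_, hs i j c1 c2 (by omega)⟩
              intro h'
              have hlt : j < Nat.find hex := by omega
              exact Nat.find_min hex hlt ⟨i, c1, c2, by omega, h'⟩)
          exact ⟨i, j, k, l, b1, b2, b3, b4, by omega, b6, b7⟩
    · push Not at hex
      obtain ⟨i, j, k, l, b1, b2, b3, b4, b5, b6, b7⟩ := ih (S.erase M) hSM A t (by omega) s (by
        intro i j c1 c2 c3
        rw [mem_erase]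
        exact ⟨hex j i c1 c2 c3, hs i j c1 c2 c3⟩)
      exact ⟨i, j, k, l, b1, b2, b3, b4, b5, b6, b7⟩

lemma exists_last (P : ℕ → Prop) (m : ℕ) (s : ℕ) (hs : s ≤ m) (h0 : P s) :
    ∃ τ, s ≤ τ ∧ τ ≤ m ∧ P τ ∧ ∀ τ', τ < τ' → τ' ≤ m → ¬ P τ' := by
  classical
  refine ⟨Nat.findGreatest P m, Nat.le_findGreatest hs h0, Nat.findGreatest_le m,
    Nat.findGreatest_spec hs h0, ?_⟩
  intro τ' h1 h2
  exact Nat.findGreatest_is_greatest h1 h2

lemma exists_first (P : ℕ → Prop) (s : ℕ) (h0 : P s) :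
    ∃ τ, τ ≤ s ∧ P τ ∧ ∀ τ', τ' < τ → ¬ P τ' := by
  classical
  exact ⟨Nat.find ⟨s, h0⟩, Nat.find_min' _ h0, Nat.find_spec ⟨s, h0⟩,
    fun τ' h => Nat.find_min ⟨s, h0⟩ h⟩

end Pool.Agent.Q130.IPC
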