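import Pool.Agent.Q130.IPC.Min

/-! # Geodesics to the root from points of an isometric path -/

set_option autoImplicit false

namespace Pool.Agent.Q130.IPC

open SimpleGraph Finset

variable {V : Type} {G : SimpleGraph V}

/-- `[x, y]` is a monotone piece of the path `f` -/
def Mono (G : SimpleGraph V) (v : V) (f : ℕ → V) (x y : ℕ) : Prop :=
  G.dist v (f y) = G.dist v (f x) + (y - x) ∨ G.dist v (f x) = G.dist v (f y) + (y - x)

lemma lip (hc : G.Connected) (v : V) {f : ℕ → V} {L : ℕ} (hf : Iso G f L) {x y : ℕ} (hxy : x ≤ y)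
    (hy : y ≤ L) : G.dist v (f y) ≤ G.dist v (f x) + (y - x) ∧
      G.dist v (f x) ≤ G.dist v (f y) + (y - x) := by
  have h1 := hf x y hxy hy
  have t1 := hc.dist_triangle (u := v) (v := f x) (w := f y)
  have t2 := hc.dist_triangle (u := v) (v := f y) (w := f x)
  rw [dist_comm (u := f y)] at t2
  omega

/-- a sequence of points with no two in a monotone piece -/
structure Seq (G : SimpleGraph V) (v : V) (f : ℕ → V) (L : ℕ) (X : ℕ → ℕ) (K : ℕ) : Prop where
  lt : ∀ i, i < K → X i < X (i + 1)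
  non : ∀ i, i < K → ¬ Mono G v f (X i) (X (i + 1))
  le : X K ≤ L

lemma Seq.gap (hc : G.Connected) {v : V} {f : ℕ → V} {L K : ℕ} {X : ℕ → ℕ} (hf : Iso G f L)
    (h : Seq G v f L X K) (i d : ℕ) (hK : i + d ≤ K) :
    X i + d ≤ X (i + d) ∧ X (i + d) ≤ L ∧
    X i + G.dist v (f (X i)) + d ≤ X (i + d) + G.dist v (f (X (i + d))) ∧
    X i + G.dist v (f (X (i + d))) + d ≤ X (i + d) + G.dist v (f (X i)) := by
  have hle : ∀ e j, j + e = K → X j ≤ L := by
    intro e
    induction e with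
    | zero => intro j hj; have : j = K := by omega
              rw [this]; exact h.le
    | succ e ih =>
      intro j hj
      exact (h.lt j (by omega)).le.trans (ih (j + 1) (by omega))
  induction d with
  | zero => exact ⟨le_rfl, hle (K - i) i (by omega), le_rfl, le_rfl⟩
  | succ d ih =>
    obtain ⟨a1, a2, a3, a4⟩ := ih (by omega)
    have b1 := h.lt (i + d) (by omega)
    have b2 := h.non (i + d) (by omega)
    have b3 := hle (K - (i + d + 1)) (i + d + 1) (by omega)
    obtain ⟨c1, c2⟩ := lip hc v hf b1.le b3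
    unfold Mono at b2
    push Not at b2
    have e : i + (d + 1) = i + d + 1 := by ring
    rw [e]
    obtain ⟨d1, d2⟩ := b2
    refine ⟨by omega, b3, by omega, by omega⟩

/-- points near a geodesic from `f (X c)` to `v` -/
lemma near (hc : G.Connected) {v : V} {f : ℕ → V} {L K : ℕ} {X : ℕ → ℕ} (hf : Iso G f L)
    (h : Seq G v f L X K) (c : ℕ) (h5 : 5 ≤ c) (hK : c + 5 ≤ K) (q : V) (τ : ℕ)
    (hτ : τ ≤ G.dist v (f (X c)))
    (h1 : G.dist (f (X c)) q = τ) (h2 : G.dist v q = G.dist v (f (X c)) - τ)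
    (x : ℕ) (hx : x ≤ L) (hd : G.dist q (f x) ≤ 2) : X (c - 5) < x ∧ x < X (c + 5) := by
  have t1 := hc.dist_triangle (u := f (X c)) (v := q) (w := f x)
  have t2 := hc.dist_triangle (u := v) (v := q) (w := f x)
  obtain ⟨g1, g2, g3, g4⟩ := h.gap hc hf c 5 hK
  obtain ⟨k1, k2, k3, k4⟩ := h.gap hc hf (c - 5) 5 (by omega)
  have e : c - 5 + 5 = c := by omega
  rw [e] at k1 k2 k3 k4
  constructor
  · by_contra hcon
    push Not at hcon
    have m1 := hf x (X c) (by omega) (by omega)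
    rw [dist_comm] at m1
    obtain ⟨l1, l2⟩ := lip hc v hf hcon (by omega)
    omega
  · by_contra hcon
    push Not at hcon
    have m1 := hf (X c) x (by omega) hx
    obtain ⟨l1, l2⟩ := lip hc v hf hcon hx
    omega

/-- the data attached to one centre -/
lemma terminal (hc : G.Connected) {v : V} {f : ℕ → V} {L K : ℕ} {X : ℕ → ℕ} (hf : Iso G f L)
    (h : Seq G v f L X K) (hfar : ∀ x, x ≤ L → 3 ≤ G.dist v (f x)) (c : ℕ) (h5 : 5 ≤ c)
    (hK : c + 5 ≤ K) :
    ∃ (q : ℕ → V) (m τ l r : ℕ), q m = v ∧ τ < m ∧ Iso G q m ∧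
      (∀ s, τ < s → s ≤ m → ∀ x, x ≤ L → 2 ≤ G.dist (q s) (f x)) ∧
      (∀ x, x ≤ L → q τ ≠ f x) ∧ l ≤ r ∧ r ≤ L ∧ G.Adj (q τ) (f l) ∧ G.Adj (q τ) (f r) ∧
      (∀ x, x ≤ L → G.Adj (q τ) (f x) → l ≤ x ∧ x ≤ r) ∧
      (∀ s, s ≤ m → ∀ x, x ≤ L → G.dist (q s) (f x) ≤ 2 → X (c - 5) < x ∧ x < X (c + 5)) := by
  obtain ⟨p, hp⟩ := hc.exists_walk_length_eq_dist (f (X c)) v
  have hiso := iso_of_walk hc p hp
  set q := p.getVert with hq
  set m := p.length with hm
  have hq0 : q 0 = f (X c) := p.getVert_zero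
  have hqm : q m = v := p.getVert_length
  have hmd : G.dist v (f (X c)) = m := by rw [SimpleGraph.dist_comm, ← hp]
  have hXL : X c ≤ L := (h.gap hc hf c 0 (by omega)).2.1
  have hd0 : ∀ s, s ≤ m → G.dist (f (X c)) (q s) = s := by
    intro s hs
    have := hiso 0 s (Nat.zero_le _) hs
    rw [hq0] at this
    omega
  have hdm : ∀ s, s ≤ m → G.dist v (q s) = m - s := by
    intro s hs
    have := hiso s m hs le_rfl
    rw [hqm, SimpleGraph.dist_comm] at this
    exact this
  obtain ⟨τ, _, t2, t3, t4⟩ := exists_last (fun s => ∃ x, x ≤ L ∧ G.dist (q s) (f x) ≤ 1) m 0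
    (Nat.zero_le _) ⟨X c, hXL, by rw [hq0, SimpleGraph.dist_self]; omega⟩
  have hτm : τ < m := by
    rcases Nat.lt_or_ge τ m with h' | h'
    · exact h'
    · exfalso
      have : τ = m := by omega
      rw [this, hqm] at t3
      obtain ⟨x, hx, hx2⟩ := t3
      have := hfar x hx
      omega
  have hfar2 : ∀ s, τ < s → s ≤ m → ∀ x, x ≤ L → 2 ≤ G.dist (q s) (f x) := by
    intro s hs1 hs2 x hx
    by_contra hcon
    exact t4 s hs1 hs2 ⟨x, hx, by omega⟩
  have hnot : ∀ x, x ≤ L → q τ ≠ f x := by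
    intro x hx heq
    have h1 := hfar2 (τ + 1) (by omega) (by omega) x hx
    have h2 := hiso τ (τ + 1) (by omega) (by omega)
    rw [heq, SimpleGraph.dist_comm] at h2
    omega
  obtain ⟨x0, hx0, hx1⟩ := t3
  have hadj0 : G.Adj (q τ) (f x0) := by
    rw [← dist_eq_one_iff_adj]
    have : G.dist (q τ) (f x0) ≠ 0 := by
      rw [Ne, hc.dist_eq_zero_iff]
      exact hnot x0 hx0
    omega
  obtain ⟨r, r1, r2, r3, r4⟩ := exists_last (fun x => G.Adj (q τ) (f x)) L x0 hx0 hadj0
  obtain ⟨l, l1, l2, l3⟩ := exists_first (fun x => G.Adj (q τ) (f x)) x0 hadj0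
  refine ⟨q, m, τ, l, r, hqm, hτm, hiso, hfar2, hnot, by omega, r2, l2, r3, ?_, ?_⟩
  · intro x hx hadj
    constructor
    · by_contra hcon
      exact l3 x (by omega) hadj
    · by_contra hcon
      exact r4 x (by omega) hx hadj
  · intro s hs x hx hd
    exact near hc hf h c h5 hK (q s) s (by omega) (hd0 s hs) (by rw [hdm s hs, hmd]) x hx hd

end Pool.Agent.Q130.IPC
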